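import Pool.Agent.Helper10.GO.GoalsA

/-!
# Packet GO-LOG: lower bound for the growth of the powers of a subspace of a field
-/

set_option autoImplicit false

namespace Pool.Agent.Helper29.GO

open Pool.Agent.Helper10.GO Module Finset

section

variable {K L : Type} [Field K] [Field L] [Algebra K L]

/-- a generating set of a field extension contains a transcendence basis -/
theorem exists_tb (Y : Set L) (d : ℕ)
    (h : Algebra.trdeg K (IntermediateField.adjoin K Y) = d) :
    ∃ z : Fin d → L, (∀ i, z i ∈ Y) ∧ AlgebraicIndependent K z := by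
  set A := IntermediateField.adjoin K Y with hA
  let S : Set A := {a | (a : L) ∈ Y}
  let B := Algebra.adjoin K S
  have halg : Algebra.IsAlgebraic B A := by
    constructor
    rintro ⟨x, hx⟩
    induction hx using IntermediateField.adjoin_induction with
    | mem x hx =>
      have : (⟨x, IntermediateField.subset_adjoin K Y hx⟩ : A) ∈ B :=
        Algebra.subset_adjoin (show x ∈ Y from hx)
      exact isAlgebraic_algebraMap (⟨_, this⟩ : B)
    | algebraMap x =>
      exact isAlgebraic_algebraMap (algebraMap K B x)
    | add x y hx hy h1 h2 => exact h1.add h2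
    | inv x hx h1 => exact h1.inv
    | mul x y hx hy h1 h2 => exact h1.mul h2
  obtain ⟨t, htS, ht⟩ := exists_isTranscendenceBasis_subset (R := K) (A := A) S
  have hc := ht.cardinalMk_eq_trdeg
  rw [h] at hc
  have e : Nonempty (Fin d ≃ t) := by
    rw [← Cardinal.eq, hc]; simp
  obtain ⟨e⟩ := e
  refine ⟨fun i ↦ ((e i : A) : L), fun i ↦ htS (e i).2, ?_⟩
  have h1 : AlgebraicIndependent K (fun i ↦ (e i : A)) := ht.1.comp _ e.injective
  exact h1.map' (f := A.val) A.val.injective

theorem prod_mem_pow {Y : Submodule K L} {ι : Type} (s : Finset ι) (z : ι → L)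
    (hz : ∀ i, z i ∈ Y) (n : ι → ℕ) : ∏ i ∈ s, z i ^ n i ∈ Y ^ ∑ i ∈ s, n i := by
  classical
  induction s using Finset.induction_on with
  | empty => simp
  | insert a s ha ih =>
    rw [prod_insert ha, sum_insert ha, pow_add]
    exact Submodule.mul_mem_mul (Submodule.pow_mem_pow _ (hz a) _) ih

end

theorem log : S_LOG := by
  classical
  intro K L _ _ _ Y d hY h1 htr t
  obtain ⟨z, hz, hind⟩ := exists_tb (Y : Set L) d htr
  have hfin : FiniteDimensional K (Y ^ t : Submodule K L) := Module.Finite.iff_fg.2 (hY.pow t)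
  let I := {s // s ∈ Finset.finsuppAntidiag (Finset.univ : Finset (Fin (d + 1))) t}
  have hsum : ∀ s : I, s.1 0 + ∑ i : Fin d, s.1 i.succ = t := by
    intro s
    have := (Finset.mem_finsuppAntidiag.1 s.2).1
    rwa [Fin.sum_univ_succ] at this
  let f : I → L := fun s ↦ ∏ i : Fin d, z i ^ (s.1 i.succ)
  have hf : ∀ s : I, f s ∈ Y ^ t := by
    intro s
    have h2 := prod_mem_pow (Finset.univ) z hz (fun i ↦ s.1 i.succ)
    refine (pow_le_pow_right' (Submodule.one_le.2 h1) ?_ :
      Y ^ ∑ i : Fin d, s.1 i.succ ≤ Y ^ t) h2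
    have := hsum s
    omega
  have hli : LinearIndependent K f := by
    have h2 : LinearIndependent K (fun n : Fin d →₀ ℕ ↦
        (MvPolynomial.aeval z : MvPolynomial (Fin d) K →ₐ[K] L) (MvPolynomial.monomial n 1)) := by
      have h3 := (MvPolynomial.basisMonomials (Fin d) K).linearIndependent.map'
        (MvPolynomial.aeval z : MvPolynomial (Fin d) K →ₐ[K] L).toLinearMap
        (LinearMap.ker_eq_bot.2 hind)
      exact h3
    have h4 := h2.comp (fun s : I ↦ Finsupp.tail s.1) (by
      intro s s' hs
      apply Subtype.ext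
      ext i
      have ht : ∀ i : Fin d, s.1 i.succ = s'.1 i.succ := fun i ↦ by
        have := DFunLike.congr_fun hs i
        simpa [Finsupp.tail_apply] using this
      refine Fin.cases ?_ (fun j ↦ ht j) i
      have e1 := hsum s
      have e2 := hsum s'
      rw [Finset.sum_congr rfl fun i _ ↦ ht i] at e1
      omega)
    convert h4 using 1
    ext s
    simp [f, MvPolynomial.aeval_monomial, Finsupp.prod_fintype, Finsupp.tail_apply]
  have hli' : LinearIndependent K (fun s ↦ (⟨f s, hf s⟩ : (Y ^ t : Submodule K L))) :=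
    LinearIndependent.of_comp (Submodule.subtype _) hli
  have hcard := hli'.fintype_card_le_finrank
  rw [Fintype.card_coe, Finset.card_finsuppAntidiag_nat_eq_choose] at hcard
  have e3 : (Finset.univ : Finset (Fin (d + 1))).card + t - 1 = d + t := by
    simp
  rw [e3, ← Nat.choose_symm_add] at hcard
  have h5 : (t : ℕ) ^ d ≤ (d + t).choose d * d.factorial := by
    rw [mul_comm, ← Nat.descFactorial_eq_factorial_mul_choose]
    refine le_trans ?_ (Nat.pow_sub_le_descFactorial _ _)
    exact Nat.pow_le_pow_left (by omega) _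
  rw [div_le_iff₀ (by positivity)]
  calc (t : ℝ) ^ d ≤ (((d + t).choose d * d.factorial : ℕ) : ℝ) := by exact_mod_cast h5
    _ = ((d + t).choose d : ℝ) * d.factorial := by push_cast; ring
    _ ≤ _ := by gcongr

end Pool.Agent.Helper29.GO
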