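import Pool.Agent.Helper10.GO.GoalsA

/-!
# Packet GO-PET: the inequality of Petridis for subspaces of a field
-/

set_option autoImplicit false

namespace Pool.Agent.Helper29.GO

open Pool.Agent.Helper10.GO Module

section

variable {K L : Type} [Field K] [Field L] [Algebra K L]

theorem fin_of_fg {M : Submodule K L} (h : M.FG) : FiniteDimensional K M :=
  Module.Finite.iff_fg.2 h

theorem inj_mul {c : L} (hc : c ≠ 0) : Function.Injective (LinearMap.mulLeft K c) :=
  fun _ _ h ↦ mul_left_cancel₀ hc h

theorem finrank_map_mul {c : L} (hc : c ≠ 0) (V : Submodule K L) :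
    finrank K (V.map (LinearMap.mulLeft K c)) = finrank K V :=
  (Submodule.equivMapOfInjective _ (inj_mul hc) V).finrank_eq.symm

theorem span_mul (c : L) (V : Submodule K L) :
    Submodule.span K {c} * V = V.map (LinearMap.mulLeft K c) := by
  rw [Submodule.mul_eq_map₂, Submodule.map₂_span_singleton_eq_map]
  rfl

/-- the dimension formula for `M + c V` -/
theorem dim_add {M V : Submodule K L} (hM : M.FG) (hV : V.FG) {c : L} (hc : c ≠ 0) :
    finrank K (M ⊔ V.map (LinearMap.mulLeft K c) : Submodule K L) +
      finrank K (V ⊓ M.comap (LinearMap.mulLeft K c) : Submodule K L) =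
      finrank K M + finrank K V := by
  have := fin_of_fg hM
  have := fin_of_fg hV
  have : FiniteDimensional K (V.map (LinearMap.mulLeft K c)) := fin_of_fg (hV.map _)
  have h := Submodule.finrank_sup_add_finrank_inf_eq M (V.map (LinearMap.mulLeft K c))
  have e : (V ⊓ M.comap (LinearMap.mulLeft K c)).map (LinearMap.mulLeft K c) =
      M ⊓ V.map (LinearMap.mulLeft K c) := by
    ext x
    simp only [Submodule.mem_map, Submodule.mem_inf, Submodule.mem_comap]
    constructor
    · rintro ⟨y, ⟨h1, h2⟩, rfl⟩
      exact ⟨h2, y, h1, rfl⟩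
    · rintro ⟨h1, y, h2, rfl⟩
      exact ⟨y, ⟨h2, h1⟩, rfl⟩
  have h2 := finrank_map_mul hc (V ⊓ M.comap (LinearMap.mulLeft K c))
  rw [e] at h2
  rw [← h2, h, finrank_map_mul hc]

/-- the main inequality -/
theorem main {A X : Submodule K L} (hA : A.FG) (hX : X.FG)
    (hmin : ∀ X' : Submodule K L, X' ≤ X →
      finrank K (X * A : Submodule K L) * finrank K X' ≤
        finrank K (X' * A : Submodule K L) * finrank K X) (s : Finset L) :
    finrank K (Submodule.span K (s : Set L) * X * A : Submodule K L) * finrank K X ≤
      finrank K (X * A : Submodule K L) *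
        finrank K (Submodule.span K (s : Set L) * X : Submodule K L) := by
  classical
  induction s using Finset.induction_on with
  | empty =>
    rw [Finset.coe_empty, Submodule.span_empty, Submodule.bot_mul, Submodule.bot_mul,
      finrank_bot, zero_mul]
    exact Nat.zero_le _
  | insert c s _ ih =>
    by_cases hc : c = 0
    · subst hc
      rw [Finset.coe_insert, Submodule.span_insert_zero]
      exact ih
    have hs : (Submodule.span K (s : Set L)).FG := ⟨s, rfl⟩
    have e1 : Submodule.span K ((insert c s : Finset L) : Set L) * X =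
        Submodule.span K (s : Set L) * X ⊔ X.map (LinearMap.mulLeft K c) := by
      rw [Finset.coe_insert, Submodule.span_insert, Submodule.sup_mul, span_mul, sup_comm]
    have e2 : Submodule.span K ((insert c s : Finset L) : Set L) * X * A =
        Submodule.span K (s : Set L) * X * A ⊔ (X * A).map (LinearMap.mulLeft K c) := by
      rw [mul_assoc, Finset.coe_insert, Submodule.span_insert, Submodule.sup_mul, span_mul,
        sup_comm, mul_assoc]
    have d1 := dim_add (hs.mul hX) hX hc
    have d2 := dim_add ((hs.mul hX).mul hA) (hX.mul hA) hc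
    rw [← e1] at d1
    rw [← e2] at d2
    set X' := X ⊓ (Submodule.span K (s : Set L) * X).comap (LinearMap.mulLeft K c) with hX'
    set Z := X * A ⊓ (Submodule.span K (s : Set L) * X * A).comap (LinearMap.mulLeft K c) with hZ
    have hXA : X' * A ≤ Z := by
      refine le_inf (mul_le_mul' inf_le_left le_rfl) ?_
      rw [Submodule.mul_le]
      intro x hx a ha
      rw [Submodule.mem_comap, LinearMap.mulLeft_apply, ← mul_assoc]
      refine Submodule.mul_mem_mul ?_ ha
      exact (Submodule.mem_inf.1 hx).2
    have : FiniteDimensional K (X * A : Submodule K L) := fin_of_fg (hX.mul hA)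
    have : FiniteDimensional K Z := Submodule.finiteDimensional_of_le (inf_le_left : Z ≤ X * A)
    have d3 : finrank K (X' * A : Submodule K L) ≤ finrank K Z := Submodule.finrank_mono hXA
    have d4 := hmin X' inf_le_left
    nlinarith [Nat.mul_le_mul_right (finrank K X) d3]

theorem exists_min {A Y : Submodule K L} (hY : Y.FG) (h0 : Y ≠ ⊥) :
    ∃ X : Submodule K L, X ≤ Y ∧ X ≠ ⊥ ∧ ∀ X' : Submodule K L, X' ≤ Y →
      finrank K (X * A : Submodule K L) * finrank K X' ≤
        finrank K (X' * A : Submodule K L) * finrank K X := by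
  classical
  have := fin_of_fg hY
  let D := finrank K Y
  let m : {X : Submodule K L // X ≤ Y ∧ X ≠ ⊥} → ℕ := fun X ↦
    finrank K (X.1 * A : Submodule K L) * (D.factorial / finrank K X.1)
  have : Nonempty {X : Submodule K L // X ≤ Y ∧ X ≠ ⊥} := ⟨⟨Y, le_rfl, h0⟩⟩
  obtain ⟨⟨X, hX, hX0⟩, hmin⟩ : ∃ X, ∀ X', m X ≤ m X' := by
    obtain ⟨X, hX⟩ := WellFounded.has_min (measure m).wf Set.univ ⟨⟨Y, le_rfl, h0⟩, trivial⟩
    exact ⟨X, fun X' ↦ not_lt.1 (hX.2 X' trivial)⟩
  refine ⟨X, hX, hX0, fun X' hX' ↦ ?_⟩
  by_cases h : X' = ⊥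
  · subst h; simp
  have h1 := hmin ⟨X', hX', h⟩
  simp only [m] at h1
  have key : ∀ Z : Submodule K L, Z ≤ Y → Z ≠ ⊥ →
      0 < finrank K Z ∧ finrank K Z * (D.factorial / finrank K Z) = D.factorial := by
    intro Z hZ hZ0
    have : FiniteDimensional K Z := Submodule.finiteDimensional_of_le hZ
    have hpos : 0 < finrank K Z := by
      rw [Nat.pos_iff_ne_zero]
      intro h
      exact hZ0 (Submodule.finrank_eq_zero.1 h)
    exact ⟨hpos, Nat.mul_div_cancel' (Nat.dvd_factorial hpos (Submodule.finrank_mono hZ))⟩
  obtain ⟨p1, q1⟩ := key X hX hX0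
  obtain ⟨p2, q2⟩ := key X' hX' h
  have hD : 0 < D.factorial := Nat.factorial_pos _
  refine Nat.le_of_mul_le_mul_right ?_ hD
  calc finrank K (X * A : Submodule K L) * finrank K X' * D.factorial
      = (finrank K (X * A : Submodule K L) * (D.factorial / finrank K X)) *
          (finrank K X * finrank K X') := by
        generalize D.factorial / finrank K X = e at q1
        rw [← q1]; ring
    _ ≤ (finrank K (X' * A : Submodule K L) * (D.factorial / finrank K X')) *
          (finrank K X * finrank K X') := Nat.mul_le_mul_right _ h1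
    _ = finrank K (X' * A : Submodule K L) * finrank K X *
          (finrank K X' * (D.factorial / finrank K X')) := by ring
    _ = _ := by rw [q2]

end

theorem pet : S_PET := by
  intro K L _ _ _ A Y C hA hY hC
  by_cases h0 : Y = ⊥
  · subst h0; simp
  obtain ⟨X, hX, hX0, hmin⟩ := exists_min (A := A) hY h0
  have := fin_of_fg hY
  have : FiniteDimensional K X := Submodule.finiteDimensional_of_le hX
  have hXfg : X.FG := Module.Finite.iff_fg.1 inferInstance
  obtain ⟨s, rfl⟩ := hC
  have hs : (Submodule.span K (s : Set L)).FG := ⟨s, rfl⟩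
  set C := Submodule.span K (s : Set L) with hC
  have h1 := main hA hXfg (fun X' h ↦ hmin X' (h.trans hX)) s
  rw [← hC] at h1
  obtain ⟨x, hx, hx0⟩ := (Submodule.ne_bot_iff _).1 hX0
  have hd : 0 < finrank K X := by
    rw [Nat.pos_iff_ne_zero]
    intro h
    exact hX0 (Submodule.finrank_eq_zero.1 h)
  have : FiniteDimensional K (C * X * A : Submodule K L) := fin_of_fg ((hs.mul hXfg).mul hA)
  have : FiniteDimensional K (C * Y : Submodule K L) := fin_of_fg (hs.mul hY)
  have h2 : finrank K (A * C : Submodule K L) ≤ finrank K (C * X * A : Submodule K L) := by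
    rw [← finrank_map_mul hx0]
    refine Submodule.finrank_mono ?_
    rw [← span_mul]
    calc Submodule.span K {x} * (A * C) ≤ X * (A * C) :=
          mul_le_mul' (by simpa using hx) le_rfl
      _ = C * X * A := by ring
  have h3 : finrank K (C * X : Submodule K L) ≤ finrank K (C * Y : Submodule K L) :=
    Submodule.finrank_mono (mul_le_mul' le_rfl hX)
  have h4 := hmin Y le_rfl
  have e1 : Y * A = A * Y := mul_comm _ _
  have e2 : C * Y = Y * C := mul_comm _ _
  rw [e1] at h4
  rw [e2] at h3
  refine Nat.le_of_mul_le_mul_right ?_ hd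
  calc finrank K (A * C : Submodule K L) * finrank K Y * finrank K X
      ≤ finrank K (C * X * A : Submodule K L) * finrank K Y * finrank K X := by gcongr
    _ = (finrank K (C * X * A : Submodule K L) * finrank K X) * finrank K Y := by ring
    _ ≤ (finrank K (X * A : Submodule K L) * finrank K (C * X : Submodule K L)) *
          finrank K Y := by gcongr
    _ ≤ (finrank K (X * A : Submodule K L) * finrank K (Y * C : Submodule K L)) *
          finrank K Y := by gcongr
    _ = (finrank K (X * A : Submodule K L) * finrank K Y) *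
          finrank K (Y * C : Submodule K L) := by ring
    _ ≤ (finrank K (A * Y : Submodule K L) * finrank K X) *
          finrank K (Y * C : Submodule K L) := by gcongr
    _ = _ := by ring

end Pool.Agent.Helper29.GO
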